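import Mathlib

/-!
# A self-shuffling word with exactly one steering word (MP_814ec7, Q1: yes)

The word `w` over a five letter alphabet starts with `abcddeabcdabdceab` (positions `0, …, 16`)
and satisfies `w (2m+1) = w (m+1)` and `w (2m+2) = w m` for all `m ≥ 8`.  Its only steering word
beginning with copy `1` is `11111122221121222(12)^ω`.
-/

namespace Pool.Agent.Results.MP_814ec7_co.UniqueSteering

/-- The two copies of the word that are shuffled. -/
inductive Copy
  | one
  | two
  deriving DecidableEq

/-- `x[N] = x` for an infinite set `N = {N_0 < N_1 < …}` of positions: `x (N_k) = x k` for every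
`k`. -/
def ReadsAs {A : Type*} (x : ℕ → A) (N : Set ℕ) : Prop :=
  N.Infinite ∧ ∀ k, x (Nat.nth (fun n => n ∈ N) k) = x k

/-- `N1, N2` is a splitting of `ℕ` showing that `x` is self-shuffling. -/
def IsSplitting {A : Type*} (x : ℕ → A) (N1 N2 : Set ℕ) : Prop :=
  Disjoint N1 N2 ∧ N1 ∪ N2 = Set.univ ∧ ReadsAs x N1 ∧ ReadsAs x N2

/-- The word `x` is self-shuffling. -/
def SelfShuffling {A : Type*} (x : ℕ → A) : Prop :=
  ∃ N1 N2 : Set ℕ, IsSplitting x N1 N2

/-- `s` is the steering word of a splitting of `x`: `s n = one` iff `n ∈ N1` and `s n = two` iff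
`n ∈ N2`. -/
def IsSteering {A : Type*} (x : ℕ → A) (s : ℕ → Copy) : Prop :=
  IsSplitting x {n | s n = Copy.one} {n | s n = Copy.two}

/-! ### Reading rule -/

lemma readsAs_iff {A : Type*} (x : ℕ → A) (p : ℕ → Prop) [DecidablePred p] :
    ReadsAs x {n | p n} ↔ {n | p n}.Infinite ∧ ∀ n, p n → x n = x (Nat.count p n) := by
  have e : (fun n => n ∈ {n | p n}) = p := rfl
  unfold ReadsAs
  rw [e]
  constructor
  · rintro ⟨h1, h2⟩
    refine ⟨h1, fun n hn => ?_⟩
    have := h2 (Nat.count p n)
    rw [Nat.nth_count hn] at this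
    exact this
  · rintro ⟨h1, h2⟩
    refine ⟨h1, fun k => ?_⟩
    have h3 : p (Nat.nth p k) := Nat.nth_mem_of_infinite h1 k
    have h4 := h2 _ h3
    rw [Nat.count_nth_of_infinite h1 k] at h4
    exact h4

/-- number of positions before `n` read from copy one -/
def c1 (s : ℕ → Copy) (n : ℕ) : ℕ := Nat.count (fun m => s m = Copy.one) n

/-- number of positions before `n` read from copy two -/
def c2 (s : ℕ → Copy) (n : ℕ) : ℕ := Nat.count (fun m => s m = Copy.two) n

lemma c1_zero (s : ℕ → Copy) : c1 s 0 = 0 := by simp [c1]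
lemma c2_zero (s : ℕ → Copy) : c2 s 0 = 0 := by simp [c2]

lemma c1_succ (s : ℕ → Copy) (n : ℕ) :
    c1 s (n + 1) = c1 s n + if s n = Copy.one then 1 else 0 := by
  simp [c1, Nat.count_succ]

lemma c2_succ (s : ℕ → Copy) (n : ℕ) :
    c2 s (n + 1) = c2 s n + if s n = Copy.two then 1 else 0 := by
  simp [c2, Nat.count_succ]

lemma steering_iff {A : Type*} (x : ℕ → A) (s : ℕ → Copy) :
    IsSteering x s ↔ {n | s n = Copy.one}.Infinite ∧ {n | s n = Copy.two}.Infinite ∧
      (∀ n, s n = Copy.one → x n = x (c1 s n)) ∧ (∀ n, s n = Copy.two → x n = x (c2 s n)) := by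
  unfold IsSteering IsSplitting
  rw [readsAs_iff, readsAs_iff]
  constructor
  · rintro ⟨-, -, ⟨h1, h2⟩, ⟨h3, h4⟩⟩
    exact ⟨h1, h3, h2, h4⟩
  · rintro ⟨h1, h2, h3, h4⟩
    refine ⟨?_, ?_, ⟨h1, h3⟩, ⟨h2, h4⟩⟩
    · rw [Set.disjoint_left]
      intro n hn hn'
      rw [Set.mem_ofPred_eq] at hn hn'
      rw [hn] at hn'
      cases hn'
    · ext n
      rw [Set.mem_union, Set.mem_ofPred_eq, Set.mem_ofPred_eq]
      simp only [Set.mem_univ, iff_true]
      cases s n <;> simp

/-! ### The word and its steering word -/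

/-- The first 17 letters `abcddeabcdabdceab`. -/
def wPre : List (Fin 5) := [0, 1, 2, 3, 3, 4, 0, 1, 2, 3, 0, 1, 3, 2, 4, 0, 1]

/-- The first 17 letters `11111122221121222` of the steering word. -/
def sPre : List Copy :=
  [.one, .one, .one, .one, .one, .one, .two, .two, .two, .two, .one, .one, .two, .one, .two,
    .two, .two]

/-- The word: `w (2m+1) = w (m+1)` and `w (2m+2) = w m` for `m ≥ 8`. -/
def w (n : ℕ) : Fin 5 :=
  if n < 17 then wPre.getD n 0 else if n % 2 = 1 then w ((n + 1) / 2) else w (n / 2 - 1)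
termination_by n
decreasing_by all_goals omega

/-- The steering word. -/
def st (n : ℕ) : Copy :=
  if n < 17 then sPre.getD n .one else if n % 2 = 1 then .one else .two

lemma w_odd (m : ℕ) (hm : 8 ≤ m) : w (2 * m + 1) = w (m + 1) := by
  rw [w, if_neg (by omega), if_pos (by omega)]
  congr 1; omega

lemma w_even (m : ℕ) (hm : 8 ≤ m) : w (2 * m + 2) = w m := by
  rw [w, if_neg (by omega), if_neg (by omega)]
  congr 1; omega

lemma w_small (n : ℕ) (hn : n < 17) : w n = wPre.getD n 0 := by
  rw [w, if_pos hn]

lemma st_small (n : ℕ) (hn : n < 17) : st n = sPre.getD n .one := by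
  rw [st, if_pos hn]

lemma st_odd (m : ℕ) (hm : 8 ≤ m) : st (2 * m + 1) = .one := by
  rw [st, if_neg (by omega), if_pos (by omega)]

lemma st_even (m : ℕ) (hm : 8 ≤ m) : st (2 * m + 2) = .two := by
  rw [st, if_neg (by omega), if_neg (by omega)]

/-- Good triples: three distinct letters, not a permutation of `abc`. -/
def Good (u v t : Fin 5) : Prop :=
  u ≠ v ∧ u ≠ t ∧ v ≠ t ∧ ¬ (u.val < 3 ∧ v.val < 3 ∧ t.val < 3)

instance (u v t : Fin 5) : Decidable (Good u v t) := by unfold Good; infer_instance

lemma good_swap1 {u v t : Fin 5} (h : Good u v t) : Good v u t := by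
  obtain ⟨h1, h2, h3, h4⟩ := h
  exact ⟨h1.symm, h3, h2, fun h => h4 ⟨h.2.1, h.1, h.2.2⟩⟩

lemma good_swap2 {u v t : Fin 5} (h : Good u v t) : Good u t v := by
  obtain ⟨h1, h2, h3, h4⟩ := h
  exact ⟨h2, h1, h3.symm, fun h => h4 ⟨h.1, h.2.2, h.2.1⟩⟩

lemma w17 : w 17 = 3 := by
  have := w_odd 8 (by norm_num)
  rw [w_small (8 + 1) (by norm_num)] at this
  exact this

lemma w18 : w 18 = 2 := by
  have := w_even 8 (by norm_num)
  rw [w_small 8 (by norm_num)] at this
  exact this

lemma good_window (n : ℕ) (hn : 8 ≤ n) : Good (w n) (w (n + 1)) (w (n + 2)) := by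
  induction n using Nat.strong_induction_on with
  | _ n ih =>
    rcases Nat.lt_or_ge n 17 with h | h
    · have h15 : w 15 = 0 := w_small 15 (by norm_num)
      have h16 : w 16 = 1 := w_small 16 (by norm_num)
      rcases Nat.lt_or_ge n 15 with h' | h'
      · rw [w_small n h, w_small (n + 1) (by omega), w_small (n + 2) (by omega)]
        interval_cases n <;> decide
      · interval_cases n
        · show Good (w 15) (w 16) (w 17)
          rw [h15, h16, w17]; decide
        · show Good (w 16) (w 17) (w 18)
          rw [h16, w17, w18]; decide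
    · rcases Nat.even_or_odd' n with ⟨m, rfl | rfl⟩
      · obtain ⟨k, rfl⟩ : ∃ k, m = k + 1 := ⟨m - 1, by omega⟩
        have e1 : w (2 * (k + 1)) = w k := by
          rw [show 2 * (k + 1) = 2 * k + 2 by ring]; exact w_even k (by omega)
        have e2 : w (2 * (k + 1) + 1) = w (k + 1 + 1) := w_odd (k + 1) (by omega)
        have e3 : w (2 * (k + 1) + 2) = w (k + 1) := w_even (k + 1) (by omega)
        rw [e1, e2, e3]
        exact good_swap2 (ih k (by omega) (by omega))
      · have e1 : w (2 * m + 1) = w (m + 1) := w_odd m (by omega)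
        have e2 : w (2 * m + 1 + 1) = w m := w_even m (by omega)
        have e3 : w (2 * m + 1 + 2) = w (m + 2) := by
          rw [show 2 * m + 1 + 2 = 2 * (m + 1) + 1 by ring]; exact w_odd (m + 1) (by omega)
        rw [e1, e2, e3]
        exact good_swap1 (ih m (by omega) (by omega))

/-- The counts for the true steering word, for `n ≥ 17`. -/
lemma counts_ge (m : ℕ) (hm : 8 ≤ m) : c1 st (2 * m + 1) = m + 1 ∧ c2 st (2 * m + 1) = m := by
  induction m, hm using Nat.le_induction with
  | base => constructor <;> decide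
  | succ m hm ih =>
    obtain ⟨h1, h2⟩ := ih
    have e : 2 * (m + 1) + 1 = 2 * m + 1 + 1 + 1 := by ring
    rw [e, c1_succ, c2_succ, c1_succ, c2_succ, h1, h2, st_odd m hm,
      show 2 * m + 1 + 1 = 2 * m + 2 by ring, st_even m hm]
    constructor <;> simp

lemma counts_ge' (m : ℕ) (hm : 8 ≤ m) : c1 st (2 * m + 2) = m + 2 ∧ c2 st (2 * m + 2) = m := by
  obtain ⟨h1, h2⟩ := counts_ge m hm
  rw [show 2 * m + 2 = 2 * m + 1 + 1 by ring, c1_succ, c2_succ, h1, h2, st_odd m hm]
  constructor <;> simp

/-- `st` reads `w` correctly from copy one. -/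
lemma read_one (n : ℕ) (h : st n = .one) : w n = w (c1 st n) := by
  rcases Nat.lt_or_ge n 17 with hn | hn
  · have key : ∀ k : Fin 17, st k.val = .one →
        c1 st k.val < 17 ∧ wPre.getD k.val 0 = wPre.getD (c1 st k.val) 0 := by decide
    obtain ⟨h1, h2⟩ := key ⟨n, hn⟩ h
    rw [w_small n hn, w_small _ h1]
    exact h2
  · rcases Nat.even_or_odd' n with ⟨m, rfl | rfl⟩
    · exfalso
      obtain ⟨k, rfl⟩ : ∃ k, m = k + 1 := ⟨m - 1, by omega⟩
      rw [show 2 * (k + 1) = 2 * k + 2 by ring, st_even k (by omega)] at h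
      cases h
    · rw [w_odd m (by omega), (counts_ge m (by omega)).1]

/-- `st` reads `w` correctly from copy two. -/
lemma read_two (n : ℕ) (h : st n = .two) : w n = w (c2 st n) := by
  rcases Nat.lt_or_ge n 17 with hn | hn
  · have key : ∀ k : Fin 17, st k.val = .two →
        c2 st k.val < 17 ∧ wPre.getD k.val 0 = wPre.getD (c2 st k.val) 0 := by decide
    obtain ⟨h1, h2⟩ := key ⟨n, hn⟩ h
    rw [w_small n hn, w_small _ h1]
    exact h2
  · rcases Nat.even_or_odd' n with ⟨m, rfl | rfl⟩
    · obtain ⟨k, rfl⟩ : ∃ k, m = k + 1 := ⟨m - 1, by omega⟩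
      rw [show 2 * (k + 1) = 2 * k + 2 by ring, w_even k (by omega), (counts_ge' k (by omega)).2]
    · exfalso
      rw [st_odd m (by omega)] at h
      cases h

/-- From position `7` on, the two candidate letters are different. -/
lemma distinct (n : ℕ) (hn : 7 ≤ n) : w (c1 st n) ≠ w (c2 st n) := by
  rcases Nat.lt_or_ge n 17 with h | h
  · have key : ∀ k : Fin 17, 7 ≤ k.val → c1 st k.val < 17 ∧ c2 st k.val < 17 ∧
        wPre.getD (c1 st k.val) 0 ≠ wPre.getD (c2 st k.val) 0 := by decide
    obtain ⟨h1, h2, h3⟩ := key ⟨n, h⟩ hn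
    rw [w_small _ h1, w_small _ h2]
    exact h3
  · rcases Nat.even_or_odd' n with ⟨m, rfl | rfl⟩
    · obtain ⟨k, rfl⟩ : ∃ k, m = k + 1 := ⟨m - 1, by omega⟩
      rw [show 2 * (k + 1) = 2 * k + 2 by ring, (counts_ge' k (by omega)).2,
        (counts_ge' k (by omega)).1]
      exact (good_window k (by omega)).2.1.symm
    · rw [(counts_ge m (by omega)).2, (counts_ge m (by omega)).1]
      exact (good_window m (by omega)).1.symm

lemma st_steering : IsSteering w st := by
  rw [steering_iff]
  refine ⟨?_, ?_, read_one, read_two⟩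
  · rw [Set.infinite_iff_exists_gt]
    intro a
    exact ⟨2 * (a + 8) + 1, st_odd (a + 8) (by omega), by omega⟩
  · rw [Set.infinite_iff_exists_gt]
    intro a
    exact ⟨2 * (a + 8) + 2, st_even (a + 8) (by omega), by omega⟩

/-! ### Uniqueness -/

lemma counts_before (s : ℕ → Copy) (k : ℕ) (h : ∀ m < k, s m = .one) :
    c1 s k = k ∧ c2 s k = 0 := by
  induction k with
  | zero => exact ⟨c1_zero s, c2_zero s⟩
  | succ k ih =>
    obtain ⟨h1, h2⟩ := ih (fun m hm => h m (by omega))
    rw [c1_succ, c2_succ, h1, h2, h k (by omega)]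
    constructor <;> simp

lemma counts_congr1 (s : ℕ → Copy) (k : ℕ) (h : ∀ m < k, s m = st m) : c1 s k = c1 st k := by
  induction k with
  | zero => rw [c1_zero, c1_zero]
  | succ k ih => rw [c1_succ, c1_succ, ih (fun m hm => h m (by omega)), h k (by omega)]

lemma counts_congr2 (s : ℕ → Copy) (k : ℕ) (h : ∀ m < k, s m = st m) : c2 s k = c2 st k := by
  induction k with
  | zero => rw [c2_zero, c2_zero]
  | succ k ih => rw [c2_succ, c2_succ, ih (fun m hm => h m (by omega)), h k (by omega)]

lemma copy_cases (c : Copy) : c = .one ∨ c = .two := by cases c <;> simp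

theorem unique (s : ℕ → Copy) (h0 : s 0 = .one) (hs : IsSteering w s) : s = st := by
  rw [steering_iff] at hs
  obtain ⟨-, hinf, r1, r2⟩ := hs
  -- the first position read from copy two
  have hex : ∃ n, s n = .two := hinf.nonempty
  classical
  obtain ⟨k, hk, hmin⟩ : ∃ k, s k = .two ∧ ∀ m < k, s m = .one := by
    refine ⟨Nat.find hex, Nat.find_spec hex, fun m hm => ?_⟩
    have := Nat.find_min hex hm
    rcases copy_cases (s m) with h | h
    · exact h
    · exact absurd h this
  obtain ⟨e1, e2⟩ := counts_before s k hmin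
  have w0 : w 0 = 0 := w_small 0 (by norm_num)
  have w1 : w 1 = 1 := w_small 1 (by norm_num)
  have w2 : w 2 = 2 := w_small 2 (by norm_num)
  have hk0 : w k = 0 := by
    have := r2 k hk
    rw [e2, w0] at this
    exact this
  -- late starts are impossible
  have hk8 : k < 8 := by
    by_contra hcon
    have hcon : 8 ≤ k := by omega
    have hg := good_window k hcon
    obtain ⟨g1, g2, g3, g4⟩ := hg
    have f1 : c1 s (k + 1) = k ∧ c2 s (k + 1) = 1 := by
      rw [c1_succ, c2_succ, e1, e2, hk]; constructor <;> simp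
    have hk1 : s (k + 1) = .two := by
      rcases copy_cases (s (k + 1)) with h | h
      · exfalso
        have := r1 (k + 1) h
        rw [f1.1] at this
        exact g1 this.symm
      · exact h
    have hw1 : w (k + 1) = 1 := by
      have := r2 (k + 1) hk1
      rw [f1.2, w1] at this
      exact this
    have f2 : c1 s (k + 2) = k ∧ c2 s (k + 2) = 2 := by
      rw [show k + 2 = k + 1 + 1 by ring, c1_succ, c2_succ, f1.1, f1.2, hk1]
      constructor <;> simp
    have hk2 : s (k + 2) = .two := by
      rcases copy_cases (s (k + 2)) with h | h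
      · exfalso
        have := r1 (k + 2) h
        rw [f2.1] at this
        exact g2 this.symm
      · exact h
    have hw2 : w (k + 2) = 2 := by
      have := r2 (k + 2) hk2
      rw [f2.2, w2] at this
      exact this
    apply g4
    rw [hk0, hw1, hw2]
    decide
  have hk6 : k = 6 := by
    have key : ∀ j : Fin 8, wPre.getD j.val 0 = 0 → j.val = 0 ∨ j.val = 6 := by decide
    have := key ⟨k, hk8⟩ ((w_small k (by omega)).symm.trans hk0)
    rcases this with h | h
    · exfalso
      simp only at h
      rw [h, h0] at hk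
      cases hk
    · exact h
  subst hk6
  have main : ∀ n, (∀ m < n, s m = st m) := by
    intro n
    induction n with
    | zero => intro m hm; omega
    | succ n ih =>
      intro m hm
      rcases Nat.lt_or_ge m n with h | h
      · exact ih m h
      · have hmn : m = n := by omega
        subst hmn
        rcases Nat.lt_or_ge m 6 with h6 | h6
        · rw [hmin m h6, st_small m (by omega)]
          interval_cases m <;> rfl
        rcases Nat.lt_or_ge m 7 with h7 | h7
        · have : m = 6 := by omega
          subst this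
          rw [hk]; rfl
        · have c1e : c1 s m = c1 st m := counts_congr1 s m ih
          have c2e : c2 s m = c2 st m := counts_congr2 s m ih
          rcases copy_cases (s m) with ha | ha <;> rcases copy_cases (st m) with hb | hb
          · rw [ha, hb]
          · exfalso
            have t1 := r1 m ha
            have t2 := read_two m hb
            rw [c1e] at t1
            exact distinct m h7 (t1.symm.trans t2)
          · exfalso
            have t1 := r2 m ha
            have t2 := read_one m hb
            rw [c2e] at t1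
            exact distinct m h7 (t2.symm.trans t1)
          · rw [ha, hb]
  funext n
  exact main (n + 1) n (by omega)

/-- There is a self-shuffling word over a finite alphabet that admits exactly one steering word
starting with copy one. -/
theorem result : ∃ x : ℕ → Fin 5, SelfShuffling x ∧
    ∃! s : ℕ → Copy, s 0 = Copy.one ∧ IsSteering x s := by
  refine ⟨w, ⟨_, _, st_steering⟩, st, ⟨rfl, st_steering⟩, ?_⟩
  rintro s ⟨h0, hs⟩
  exact unique s h0 hs

end Pool.Agent.Results.MP_814ec7_co.UniqueSteering
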